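import Pool.Agent.Work.MP_a23c49_gr.Def

namespace Pool.Agent.Work.MP_a23c49_gr

open Pool.Agent.Work.MP_a23c49_lc Pool.Agent.Work.TMLib Finset

theorem p_FIN (hG5 : S_G5) (hG6 : S_G6) (hG7 : S_G7) (hG9 : S_G9) (hG11 : S_G11) (hG12 : S_G12) : S_FIN := by
  refine ⟨theGr, hG5, hG7, fun N S hS hg => ?_⟩
  have hlen : (theGr S).length = (gr (S.map rawP)).length := List.length_map _
  rw [hlen]
  rcases eq_or_ne S [] with rfl | hne
  · simp
  have hn : 1 ≤ S.length := List.length_pos_iff.2 hne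
  obtain ⟨-, h1, h2⟩ := hG6 S hS
  have h1 := h1 hne
  have hN : 1 ≤ N := by
    obtain ⟨s, hs⟩ := List.exists_mem_of_ne_nil S hne
    obtain ⟨x, y, hx, -, -⟩ := hg s hs
    omega
  rcases Nat.lt_or_ge S.length N with hlt | hle
  · have h3 : MG S.toFinset ≤ S.length := by
      obtain ⟨O, hOS, -, hc⟩ := exists_MG S.toFinset
      rw [← hc]
      exact (card_le_card hOS).trans (List.toFinset_card_le S)
    have h4 : MG S.toFinset * S.length ≤ N * N := Nat.mul_le_mul (by omega) (by omega)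
    nlinarith
  · obtain ⟨p, hp, hp1, hp2⟩ := Nat.exists_prime_lt_and_le_two_mul N (by omega)
    obtain ⟨c, hc, h3⟩ := hG11 N S p hS hg hle (by omega)
    have h4 := hG12 N S p c hS hg hle hp (by omega)
    have h5 := h2 p c (by omega) (by omega) h4
    have h6 := hG9 N S hg
    have h7 : S.length ≤ 2 * N * (gr (S.map rawP)).length := h3.trans (Nat.mul_le_mul hp2 h5)
    calc MG S.toFinset * S.length ≤ 2 * N * (2 * N * (gr (S.map rawP)).length) := Nat.mul_le_mul h6 h7
      _ = 4 * N ^ 2 * (gr (S.map rawP)).length := by ring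

end Pool.Agent.Work.MP_a23c49_gr
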