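import Pool.Agent.Work.MP_a23c49_gr.Def

namespace Pool.Agent.Work.MP_a23c49_gr

open Pool.Agent.Work.MP_a23c49_lc Pool.Agent.Work.TMLib Finset

theorem md_fold (p : ℕ) (l : List ℕ) : ∀ v : ℕ, v % p = (l.foldl (fun v _ => bif decide (p ≤ v) then v - p else v) v) % p ∧
    (v ≤ l.length → 1 ≤ p → (l.foldl (fun v _ => bif decide (p ≤ v) then v - p else v) v) < p) := by
  induction l with
  | nil =>
    intro v
    refine ⟨rfl, fun h h1 => ?_⟩
    simp only [List.length_nil, List.foldl_nil] at *
    omega
  | cons a l ih =>
    intro v
    rw [List.foldl_cons]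
    by_cases h : p ≤ v
    · rw [decide_eq_true h, cond_true]
      obtain ⟨h1, h2⟩ := ih (v - p)
      refine ⟨?_, fun h3 h4 => h2 ?_ h4⟩
      · rw [← h1]
        exact (Nat.mod_eq_sub_mod h)
      · simp only [List.length_cons] at h3
        omega
    · rw [decide_eq_false h, cond_false]
      obtain ⟨h1, h2⟩ := ih v
      refine ⟨h1, fun h3 h4 => ?_⟩
      rcases Nat.lt_or_ge l.length v with h5 | h5
      · simp only [List.length_cons] at h3
        have hst : ∀ l : List ℕ, l.foldl (fun v _ => bif decide (p ≤ v) then v - p else v) v = v := by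
          intro l
          induction l with
          | nil => rfl
          | cons b l ih2 =>
            rw [List.foldl_cons, decide_eq_false h, cond_false]
            exact ih2
        rw [hst]
        omega
      · exact h2 h5 h4

theorem p_G1 : S_G1 := by
  refine ⟨fun a p => ?_, ?_⟩
  · unfold md
    rcases Nat.eq_zero_or_pos p with rfl | hp
    · have hst : ∀ l : List ℕ, l.foldl (fun v _ => bif decide (0 ≤ v) then v - 0 else v) a = a := by
        intro l
        induction l with
        | nil => rfl
        | cons b l ih =>
          rw [List.foldl_cons, decide_eq_true (Nat.zero_le _), cond_true]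
          exact ih
      rw [hst, Nat.mod_zero]
    · obtain ⟨h1, h2⟩ := md_fold p (List.range a) a
      have h3 := h2 (by rw [List.length_range]) hp
      rw [h1, Nat.mod_eq_of_lt h3]
  · unfold md
    refine PolyF.foldl_add (l := fun x : ℕ × ℕ => List.range x.1) (g := fun x => x.1)
      (h := fun x v _ => bif decide (x.2 ≤ v) then v - x.2 else v) (by fun_prop) (by fun_prop) (by fun_prop) 0 ?_
    intro x v b _
    simp only [sz_nat, Polynomial.eval_zero]
    by_cases h : x.2 ≤ v
    · rw [decide_eq_true h, cond_true]
      omega
    · rw [decide_eq_false h, cond_false]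
      omega

end Pool.Agent.Work.MP_a23c49_gr
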