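import Pool.Agent.Work.MP_a23c49_gr.Def

namespace Pool.Agent.Work.MP_a23c49_gr

open Pool.Agent.Work.MP_a23c49_lc Pool.Agent.Work.TMLib Finset

theorem rawQ_nat (x : ℕ) : rawQ (x : ℚ) = [x.bits, [], [true]] := by
  unfold rawQ
  have h1 : ((x : ℚ)).num = (x : ℤ) := Rat.num_natCast x
  have h2 : ((x : ℚ)).den = 1 := Rat.den_natCast x
  rw [h1, h2]
  have h3 : (-(x : ℤ)).toNat = 0 := by omega
  rw [h3]
  simp

theorem p_G10 (hG1 : S_G1) (hG2 : S_G2) : S_G10 := by
  intro N S p i x y hg hN hi hxy hx hy c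
  have e : (S.map rawP).getD i [] = [x.bits, [], [true], y.bits, [], [true]] := by
    rw [List.getD_eq_getElem _ _ (by simpa using hi), List.getElem_map]
    have h1 : S[i] = ((x : ℚ), (y : ℚ)) := by
      rw [← hxy]
      unfold at'
      rw [List.getD_eq_getElem _ _ hi]
    rw [h1]
    unfold rawP
    rw [rawQ_nat, rawQ_nat]
    rfl
  unfold cls
  rw [List.mem_filter, List.mem_range, e]
  have h3 : [x.bits, [], [true], y.bits, [], [true]].getD 3 [] = y.bits := rfl
  have h0 : [x.bits, [], [true], y.bits, [], [true]].getD 0 [] = x.bits := rfl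
  have hok : okR [x.bits, [], [true], y.bits, [], [true]] = true := by
    unfold okR
    rfl
  rw [hok, h3, h0, hG2.1, hG2.1, bv_bits, bv_bits, List.length_map, Nat.min_eq_right (by omega),
    Nat.min_eq_right (by omega), hG1.1]
  simp [hi]

end Pool.Agent.Work.MP_a23c49_gr
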