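import Pool.Agent.Work.MP_a23c49_gr.Def

/-! # Block G10, second copy (helper88) -/

set_option autoImplicit false

namespace Pool.Agent.Work.MP_a23c49_gr

open Pool.Agent.Work.MP_a23c49_lc Pool.Agent.Work.TMLib Finset

theorem G10x_raw (x y : ℕ) : rawP ((x : ℚ), (y : ℚ)) =
    [x.bits, [], [true], y.bits, [], [true]] := by
  simp [rawP, rawQ]

theorem p_G10 (hG1 : S_G1) (hG2 : S_G2) : S_G10 := by
  intro N S p i x y _ hNS hi hat hx hy c
  have hget : (S.map rawP).getD i [] = [x.bits, [], [true], y.bits, [], [true]] := by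
    rw [← G10x_raw, ← hat]
    unfold at'
    rw [List.getD_eq_getElem?_getD, List.getElem?_map, List.getElem?_eq_getElem hi]
    simp [List.getD_eq_getElem?_getD, List.getElem?_eq_getElem hi]
  unfold cls
  rw [List.mem_filter, List.mem_range, List.length_map, hget]
  have hx' : capv S.length x.bits = x := by
    rw [hG2.1, bv_bits]
    omega
  have hy' : capv S.length y.bits = y := by
    rw [hG2.1, bv_bits]
    omega
  simp [okR, hi, hx', hy', hG1.1]

end Pool.Agent.Work.MP_a23c49_gr
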