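import Pool.Agent.Work.MP_a23c49_gr.Def

/-!
# G11: the large class
-/

namespace Pool.Agent.Work.MP_a23c49_gr

open Pool.Agent.Work.MP_a23c49_lc Pool.Agent.Work.TMLib Finset

theorem p_G11 (hG10 : S_G10) : S_G11 := by
  classical
  intro N S p hnd hgrid hN hp
  have h1 : Finset.range S.length ⊆
      (Finset.range p).biUnion fun c => (cls (S.map rawP) p c).toFinset := by
    intro i hi
    have hi' : i < S.length := Finset.mem_range.1 hi
    have hmem : at' S i ∈ S := by
      unfold at'
      rw [List.getD_eq_getElem _ _ hi']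
      exact List.getElem_mem hi'
    obtain ⟨x, y, hx, hy, hxy⟩ := hgrid _ hmem
    rw [Finset.mem_biUnion]
    refine ⟨(y + (p - 1) * (x * x)) % p, Finset.mem_range.2 (Nat.mod_lt _ hp), ?_⟩
    rw [List.mem_toFinset]
    exact (hG10 N S p i x y hgrid hN hi' hxy hx hy _).2 rfl
  have h2 : S.length ≤ ∑ c ∈ Finset.range p, (cls (S.map rawP) p c).length := by
    calc S.length = (Finset.range S.length).card := (Finset.card_range _).symm
      _ ≤ _ := Finset.card_le_card h1
      _ ≤ ∑ c ∈ Finset.range p, ((cls (S.map rawP) p c).toFinset).card :=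
          Finset.card_biUnion_le
      _ ≤ _ := Finset.sum_le_sum fun c _ => List.toFinset_card_le _
  by_contra hne
  push Not at hne
  have h3 : ∑ c ∈ Finset.range p, p * (cls (S.map rawP) p c).length <
      ∑ c ∈ Finset.range p, S.length :=
    Finset.sum_lt_sum_of_nonempty ⟨0, Finset.mem_range.2 hp⟩
      fun c hc => hne c (Finset.mem_range.1 hc)
  rw [← Finset.mul_sum, Finset.sum_const, Finset.card_range, smul_eq_mul] at h3
  exact absurd (Nat.mul_le_mul_left p h2) (not_le.2 h3)

end Pool.Agent.Work.MP_a23c49_gr
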