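import Pool.Agent.Work.MP_a23c49_gr.Def

/-!
# Block G12: the classes are independent
-/

set_option autoImplicit false

namespace Pool.Agent.Work.MP_a23c49_gr

open Pool.Agent.Work.MP_a23c49_lc Pool.Agent.Work.TMLib Finset

namespace G12

theorem mem_at {S : List (ℚ × ℚ)} {i : ℕ} (hi : i < S.length) : at' S i ∈ S := by
  unfold at'
  rw [List.getD_eq_getElem _ _ hi]
  exact List.getElem_mem hi

theorem inj_at {S : List (ℚ × ℚ)} (hS : S.Nodup) {i j : ℕ} (hi : i < S.length) (hj : j < S.length)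
    (h : at' S i = at' S j) : i = j := by
  unfold at' at h
  rw [List.getD_eq_getElem _ _ hi, List.getD_eq_getElem _ _ hj] at h
  exact (List.Nodup.getElem_inj_iff hS).1 h

end G12

theorem p_G12 (hG8 : S_G8) (hG10 : S_G10) : S_G12 := by
  intro N S p c hS hgrid hN hp hNp
  unfold indb
  rw [List.all_eq_true]
  intro i hi
  rw [List.all_eq_true]
  intro j hj
  rw [List.all_eq_true]
  intro k hk
  rw [Bool.not_eq_true']
  by_contra hT
  rw [Bool.not_eq_false] at hT
  obtain ⟨⟨hi', hj', hk'⟩, ⟨hij, hjk, hik⟩, hcol⟩ := (TS_iff i j k).1 hT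
  obtain ⟨x1, y1, hx1, hy1, e1⟩ := hgrid _ (G12.mem_at hi')
  obtain ⟨x2, y2, hx2, hy2, e2⟩ := hgrid _ (G12.mem_at hj')
  obtain ⟨x3, y3, hx3, hy3, e3⟩ := hgrid _ (G12.mem_at hk')
  have h1 := (hG10 N S p i x1 y1 hgrid hN hi' e1 hx1 hy1 c).1 hi
  have h2 := (hG10 N S p j x2 y2 hgrid hN hj' e2 hx2 hy2 c).1 hj
  have h3 := (hG10 N S p k x3 y3 hgrid hN hk' e3 hx3 hy3 c).1 hk
  have n12 : (x1, y1) ≠ (x2, y2) := by
    intro h
    apply hij
    apply G12.inj_at hS hi' hj'
    rw [e1, e2, (Prod.mk.inj h).1, (Prod.mk.inj h).2]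
  have n13 : (x1, y1) ≠ (x3, y3) := by
    intro h
    apply hik
    apply G12.inj_at hS hi' hk'
    rw [e1, e3, (Prod.mk.inj h).1, (Prod.mk.inj h).2]
  have n23 : (x2, y2) ≠ (x3, y3) := by
    intro h
    apply hjk
    apply G12.inj_at hS hj' hk'
    rw [e2, e3, (Prod.mk.inj h).1, (Prod.mk.inj h).2]
  rw [e1, e2, e3] at hcol
  refine hG8 p ![x1, x2, x3] ![y1, y2, y3] c hp ?_ ?_ ?_ ?_ hcol
  · intro a
    fin_cases a
    · exact lt_of_lt_of_le hx1 hNp
    · exact lt_of_lt_of_le hx2 hNp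
    · exact lt_of_lt_of_le hx3 hNp
  · intro a
    fin_cases a
    · exact lt_of_lt_of_le hy1 hNp
    · exact lt_of_lt_of_le hy2 hNp
    · exact lt_of_lt_of_le hy3 hNp
  · intro a
    fin_cases a
    · exact h1
    · exact h2
    · exact h3
  · intro a b hab
    fin_cases a <;> fin_cases b
    · exact absurd rfl hab
    · exact n12
    · exact n13
    · exact n12.symm
    · exact absurd rfl hab
    · exact n23
    · exact n13.symm
    · exact n23.symm
    · exact absurd rfl hab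

end Pool.Agent.Work.MP_a23c49_gr
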