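import Pool.Agent.Work.MP_a23c49_gr.Def

/-!
# MP_a23c49_lc, theorem GR: block G2 (the capped value of a bit string)
-/

namespace Pool.Agent.Work.MP_a23c49_gr

open Pool.Agent.Work.MP_a23c49_lc Pool.Agent.Work.TMLib Finset

namespace G2

/-- one step -/
def st (cap v : ℕ) (b : Bool) : ℕ :=
  bif decide (v + v + (bif b then 1 else 0) ≤ cap) then v + v + (bif b then 1 else 0) else cap

theorem capv_eq (cap : ℕ) (l : List Bool) : capv cap l = l.reverse.foldl (st cap) 0 := rfl

theorem st_le (cap v : ℕ) (b : Bool) : st cap v b ≤ cap := by
  unfold st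
  by_cases h : v + v + (bif b then 1 else 0) ≤ cap
  · simp only [decide_eq_true h, cond_true]; exact h
  · simp only [decide_eq_false h, cond_false]; exact le_rfl

theorem fold_le (cap : ℕ) (l : List Bool) : ∀ v, v ≤ cap → l.foldl (st cap) v ≤ cap := by
  induction l with
  | nil => intro v hv; exact hv
  | cons b l ih => intro v _; exact ih _ (st_le cap v b)

theorem value (cap : ℕ) (l : List Bool) : capv cap l = min cap (bv l) := by
  induction l with
  | nil => simp [capv, bv]
  | cons b l ih =>
    rw [capv_eq, List.reverse_cons, List.foldl_append, ← capv_eq, ih]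
    simp only [List.foldl_cons, List.foldl_nil, st, bv]
    cases b
    · simp only [cond_false, Bool.toNat_false, Nat.add_zero, Nat.zero_add]
      by_cases h : min cap (bv l) + min cap (bv l) ≤ cap
      · simp only [decide_eq_true h, cond_true]; omega
      · simp only [decide_eq_false h, cond_false]; omega
    · simp only [cond_true, Bool.toNat_true]
      by_cases h : min cap (bv l) + min cap (bv l) + 1 ≤ cap
      · simp only [decide_eq_true h, cond_true]; omega
      · simp only [decide_eq_false h, cond_false]; omega

theorem poly : PolyF (fun x : ℕ × List Bool => capv x.1 x.2) := by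
  refine PolyF.foldl (l := fun x : ℕ × List Bool => x.2.reverse) (g := fun _ => (0 : ℕ))
    (h := fun x v b => bif decide (v + v + (bif b then 1 else 0) ≤ x.1) then v + v + (bif b then 1 else 0) else x.1)
    (by fun_prop) (by fun_prop) (by fun_prop) (Polynomial.X) ?_
  intro x j _
  have h := fold_le x.1 (x.2.reverse.take j) 0 (Nat.zero_le _)
  have e : (x.2.reverse.take j).foldl (fun v b => bif decide (v + v + (bif b then 1 else 0) ≤ x.1) then
    v + v + (bif b then 1 else 0) else x.1) 0 = (x.2.reverse.take j).foldl (st x.1) 0 := rfl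
  show sz ((x.2.reverse.take j).foldl (fun v b => bif decide (v + v + (bif b then 1 else 0) ≤ x.1) then
    v + v + (bif b then 1 else 0) else x.1) 0) ≤ _
  rw [e]
  obtain ⟨a, l⟩ := x
  simp only [sz_pair, sz_nat, Polynomial.eval_X] at *
  omega

end G2

/-- Block G2. -/
theorem p_G2 : S_G2 := ⟨G2.value, G2.poly⟩

end Pool.Agent.Work.MP_a23c49_gr
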