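import Pool.Agent.Work.MP_a23c49_gr.Def

/-! # Block G3: the classes are computed in polynomial time -/

set_option autoImplicit false

namespace Pool.Agent.Work.MP_a23c49_gr

open Pool.Agent.Work.MP_a23c49_lc Pool.Agent.Work.TMLib Finset

theorem G3_eq1 : PolyF (fun l : List Bool => decide (l = [true])) := by
  have h : PolyF (fun l : List Bool => !(l.isEmpty) && (l.headD false && l.tail.isEmpty)) := by
    fun_prop
  refine h.congrF fun l => ?_
  rcases l with _ | ⟨a, _ | ⟨b, l⟩⟩
  · simp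
  · cases a <;> simp
  · simp

theorem G3_okR : PolyF (fun r : RP => okR r) := by
  unfold okR
  have h2 : PolyF (fun r : RP => decide (r.getD 2 [] = [true])) :=
    PolyF.comp (f := fun l : List Bool => decide (l = [true])) (g := fun r : RP => r.getD 2 [])
      G3_eq1 (by fun_prop)
  have h5 : PolyF (fun r : RP => decide (r.getD 5 [] = [true])) :=
    PolyF.comp (f := fun l : List Bool => decide (l = [true])) (g := fun r : RP => r.getD 5 [])
      G3_eq1 (by fun_prop)
  refine PolyF.and (by fun_prop) (PolyF.and h2 (PolyF.and (by fun_prop) h5))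

theorem p_G3 (hG1 : S_G1) (hG2 : S_G2) : S_G3 := by
  have hmd := hG1.2
  have hcap := hG2.2
  unfold S_G3 cls
  refine PolyF.filter (l := fun x : (List RP × ℕ) × ℕ => List.range x.1.1.length)
    (f := fun x i => okR (x.1.1.getD i []) &&
      decide (md (capv x.1.1.length ((x.1.1.getD i []).getD 3 []) +
        (x.1.2 - 1) * (capv x.1.1.length ((x.1.1.getD i []).getD 0 []) *
          capv x.1.1.length ((x.1.1.getD i []).getD 0 []))) x.1.2 = x.2)) (by fun_prop) ?_
  have hok : PolyF (fun y : ((List RP × ℕ) × ℕ) × ℕ => okR (y.1.1.1.getD y.2 [])) :=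
    PolyF.comp (f := fun r : RP => okR r)
      (g := fun y : ((List RP × ℕ) × ℕ) × ℕ => y.1.1.1.getD y.2 []) G3_okR (by fun_prop)
  have hc : ∀ k : ℕ, PolyF (fun y : ((List RP × ℕ) × ℕ) × ℕ =>
      capv y.1.1.1.length ((y.1.1.1.getD y.2 []).getD k [])) := fun k =>
    PolyF.comp (f := fun x : ℕ × List Bool => capv x.1 x.2)
      (g := fun y : ((List RP × ℕ) × ℕ) × ℕ => (y.1.1.1.length, (y.1.1.1.getD y.2 []).getD k []))
      hcap (by fun_prop)
  have h3 := hc 3
  have h0 := hc 0
  have ha : PolyF (fun y : ((List RP × ℕ) × ℕ) × ℕ =>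
      capv y.1.1.1.length ((y.1.1.1.getD y.2 []).getD 3 []) +
        (y.1.1.2 - 1) * (capv y.1.1.1.length ((y.1.1.1.getD y.2 []).getD 0 []) *
          capv y.1.1.1.length ((y.1.1.1.getD y.2 []).getD 0 []))) :=
    PolyF.add h3 (PolyF.mul (by fun_prop) (PolyF.mul h0 h0))
  have hm : PolyF (fun y : ((List RP × ℕ) × ℕ) × ℕ =>
      md (capv y.1.1.1.length ((y.1.1.1.getD y.2 []).getD 3 []) +
        (y.1.1.2 - 1) * (capv y.1.1.1.length ((y.1.1.1.getD y.2 []).getD 0 []) *
          capv y.1.1.1.length ((y.1.1.1.getD y.2 []).getD 0 []))) y.1.1.2) :=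
    PolyF.comp (f := fun x : ℕ × ℕ => md x.1 x.2)
      (g := fun y : ((List RP × ℕ) × ℕ) × ℕ =>
        (capv y.1.1.1.length ((y.1.1.1.getD y.2 []).getD 3 []) +
          (y.1.1.2 - 1) * (capv y.1.1.1.length ((y.1.1.1.getD y.2 []).getD 0 []) *
            capv y.1.1.1.length ((y.1.1.1.getD y.2 []).getD 0 [])), y.1.1.2))
      hmd (PolyF.pair ha (by fun_prop))
  exact PolyF.and hok (PolyF.natEq hm (by fun_prop))

end Pool.Agent.Work.MP_a23c49_gr
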