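import Pool.Agent.Work.MP_a23c49_gr.Def

/-! Block G4. -/

namespace Pool.Agent.Work.MP_a23c49_gr

open Pool.Agent.Work.MP_a23c49_lc Pool.Agent.Work.TMLib Finset Polynomial

theorem G4_grid : PolyF (fun n : ℕ => (List.range (2 * n + 1)).flatMap fun t =>
    (List.range (2 * n + 1)).map fun j => (t, j)) := by
  refine PolyF.flatMap (l := fun n : ℕ => List.range (2 * n + 1)) (f := fun n t =>
    (List.range (2 * n + 1)).map fun j => (t, j)) (by fun_prop) ?_
  exact PolyF.map (l := fun p : ℕ × ℕ => List.range (2 * p.1 + 1)) (f := fun p b => (p.2, b))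
    (by fun_prop) (by fun_prop)

theorem G4_all : PolyF (fun p : List (ℕ × ℕ × ℕ) × List ℕ => indb (MP_a23c49_lc.TL p.1) p.2) := by
  unfold indb
  refine PolyF.all (l := fun p : List (ℕ × ℕ × ℕ) × List ℕ => p.2) (f := fun p a => p.2.all fun b =>
    p.2.all fun c => !(MP_a23c49_lc.TL p.1 a b c)) (by fun_prop) ?_
  refine PolyF.all (l := fun p : (List (ℕ × ℕ × ℕ) × List ℕ) × ℕ => p.1.2) (f := fun p b =>
    p.1.2.all fun c => !(MP_a23c49_lc.TL p.1.1 p.2 b c)) (by fun_prop) ?_
  refine PolyF.all (l := fun p : ((List (ℕ × ℕ × ℕ) × List ℕ) × ℕ) × ℕ => p.1.1.2) (f := fun p c =>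
    !(MP_a23c49_lc.TL p.1.1.1 p.1.2 p.2 c)) (by fun_prop) ?_
  fun_prop

theorem p_G4 (hG3 : S_G3) : S_G4 := by
  have hcls : PolyF (fun p : List RP × (ℕ × ℕ) => cls p.1 p.2.1 p.2.2) :=
    PolyF.comp (f := fun x : (List RP × ℕ) × ℕ => cls x.1.1 x.1.2 x.2)
      (g := fun p : List RP × (ℕ × ℕ) => ((p.1, p.2.1), p.2.2)) hG3 (by fun_prop)
  have htab : PolyF (fun p : List RP × (ℕ × ℕ) => table p.1) :=
    PolyF.comp (f := fun P : List RP => table P) (g := fun p : List RP × (ℕ × ℕ) => p.1)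
      PolyF.table (by fun_prop)
  have hatt : PolyF (fun p : List RP × (ℕ × ℕ) =>
      bif indb (MP_a23c49_lc.TL (table p.1)) (cls p.1 p.2.1 p.2.2) then cls p.1 p.2.1 p.2.2 else []) := by
    have h1 : PolyF (fun p : List RP × (ℕ × ℕ) =>
        indb (MP_a23c49_lc.TL (table p.1)) (cls p.1 p.2.1 p.2.2)) :=
      PolyF.comp (f := fun p : List (ℕ × ℕ × ℕ) × List ℕ => indb (MP_a23c49_lc.TL p.1) p.2)
        (g := fun p : List RP × (ℕ × ℕ) => (table p.1, cls p.1 p.2.1 p.2.2)) G4_all (by fun_prop)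
    fun_prop
  obtain ⟨qa, hqa⟩ := hatt.size
  have hgrid : PolyF (fun P : List RP =>
      (List.range (2 * P.length + 1)).flatMap fun t =>
      (List.range (2 * P.length + 1)).map fun j => (t, j)) :=
    PolyF.comp (f := fun n : ℕ => (List.range (2 * n + 1)).flatMap fun t =>
      (List.range (2 * n + 1)).map fun j => (t, j))
      (g := fun P : List RP => P.length) G4_grid (by fun_prop)
  obtain ⟨qg, hqg⟩ := hgrid.size
  unfold S_G4 gr
  refine PolyF.foldl_add (l := fun P : List RP =>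
      (List.range (2 * P.length + 1)).flatMap fun t =>
      (List.range (2 * P.length + 1)).map fun j => (t, j))
    (g := fun P => (List.range P.length).filter fun i => decide (i = 0))
    (h := fun P B x => MP_a23c49_lc.lg B
      (bif indb (MP_a23c49_lc.TL (table P)) (cls P x.1 x.2) then cls P x.1 x.2 else []))
    hgrid (PolyF.filter (l := fun P : List RP => List.range P.length)
      (f := fun _ i => decide (i = 0)) (by fun_prop) (by fun_prop)) ?_ (qa.comp (X + qg + 1)) ?_
  · have h2 : PolyF (fun p : List RP × List ℕ × (ℕ × ℕ) =>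
        bif indb (MP_a23c49_lc.TL (table p.1)) (cls p.1 p.2.2.1 p.2.2.2) then
          cls p.1 p.2.2.1 p.2.2.2 else []) :=
      PolyF.comp (f := fun p : List RP × (ℕ × ℕ) =>
        bif indb (MP_a23c49_lc.TL (table p.1)) (cls p.1 p.2.1 p.2.2) then cls p.1 p.2.1 p.2.2 else [])
        (g := fun p : List RP × List ℕ × (ℕ × ℕ) => (p.1, p.2.2)) hatt (by fun_prop)
    fun_prop
  · intro P B x hx
    have h1 := sz_lg_le B (bif indb (MP_a23c49_lc.TL (table P)) (cls P x.1 x.2) then cls P x.1 x.2 else [])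
    have h2 := hqa (P, x)
    have h3 := sz_le_of_mem hx
    have h4 := hqg P
    have h5 : qa.eval (sz (P, x)) ≤ (qa.comp (X + qg + 1)).eval (sz P) := by
      rw [eval_comp]
      apply poly_mono
      simp only [eval_add, eval_X, eval_one]
      have h6 : sz (P, x) = sz P + sz x + 1 := rfl
      omega
    simp only at h2
    omega

end Pool.Agent.Work.MP_a23c49_gr
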