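import Pool.Agent.Work.MP_a23c49_gr.Def

set_option linter.unusedVariables false

namespace Pool.Agent.Work.MP_a23c49_gr

open Pool.Agent.Work.MP_a23c49_lc Pool.Agent.Work.TMLib Finset

theorem G5_cls_lt (P : List RP) (p c : ℕ) : ∀ i ∈ cls P p c, i < P.length := by
  intro i hi
  unfold cls at hi
  rw [List.mem_filter, List.mem_range] at hi
  exact hi.1

theorem G5_lg_mem {B Y : List ℕ} {i : ℕ} (h : i ∈ lg B Y) : i ∈ B ∨ i ∈ Y := by
  unfold lg at h
  revert h
  cases hd : decide (B.length < Y.length) <;> simp only [cond_true, cond_false] <;> intro h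
  · exact Or.inl h
  · exact Or.inr h

theorem G5_fold_lt (P : List RP) (L : List (ℕ × ℕ)) : ∀ B : List ℕ, (∀ i ∈ B, i < P.length) →
    ∀ i ∈ L.foldl (fun B x => lg B (bif indb (TL (table P)) (cls P x.1 x.2) then cls P x.1 x.2 else [])) B,
      i < P.length := by
  induction L with
  | nil => intro B hB i hi; exact hB i hi
  | cons x L ih =>
    intro B hB i hi
    rw [List.foldl_cons] at hi
    refine ih _ ?_ i hi
    intro j hj
    rcases G5_lg_mem hj with h | h
    · exact hB j h
    · cases hd : indb (TL (table P)) (cls P x.1 x.2)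
      · rw [hd] at h
        simp at h
      · rw [hd] at h
        exact G5_cls_lt P _ _ j h

theorem G5_gr_lt (P : List RP) : ∀ i ∈ gr P, i < P.length := by
  intro i hi
  unfold gr at hi
  refine G5_fold_lt P _ _ ?_ i hi
  intro j hj
  rw [List.mem_filter, List.mem_range] at hj
  exact hj.1

/-- the points read -/
def G5pp (w : List (Fin 5)) : List RP := (parse w).2.2.2.1

theorem G5pp' : PolyF (fun w : List (Fin 5) => G5pp w) := by
  have := PolyF.parse
  unfold G5pp
  fun_prop

/-- the function computed by the machine, on strings -/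
def G5G (w : List (Fin 5)) : List (Fin 5) := (gr (G5pp w)).flatMap fun i => encR ((G5pp w).getD i [])

theorem G5enc : PolyF (fun p : List RP × List ℕ => p.2.flatMap fun i => encR (p.1.getD i [])) := by
  refine PolyF.flatMap (l := fun p : List RP × List ℕ => p.2) (f := fun p i => encR (p.1.getD i [])) (by fun_prop) ?_
  exact PolyF.comp (f := fun r : RP => MP_a23c49_lc.encR r)
    (g := fun p : (List RP × List ℕ) × ℕ => p.1.1.getD p.2 []) PolyF.encR (by fun_prop)

theorem G5G' (hG4 : S_G4) : PolyF (fun w : List (Fin 5) => G5G w) := by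
  have hp := G5pp'
  have hg : PolyF (fun w : List (Fin 5) => gr (G5pp w)) :=
    PolyF.comp (f := fun P : List RP => gr P) (g := fun w : List (Fin 5) => G5pp w) hG4 hp
  unfold G5G
  exact PolyF.comp (f := fun p : List RP × List ℕ => p.2.flatMap fun i => encR (p.1.getD i []))
      (g := fun w : List (Fin 5) => (G5pp w, gr (G5pp w))) G5enc (by fun_prop)

theorem G5_enc_eq (S : List (ℚ × ℚ)) (Y : List ℕ) (hY : ∀ i ∈ Y, i < S.length) :
    (Y.flatMap fun i => encR ((S.map rawP).getD i [])) = encPoints (Y.map (at' S)) := by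
  unfold encPoints
  rw [List.flatMap_map]
  apply List.flatMap_congr
  intro i hi
  have hi' := hY i hi
  have e3 : (S.map rawP).getD i [] = rawP (at' S i) := by
    unfold at'
    rw [List.getD_eq_getElem _ _ (by simpa using hi'), List.getD_eq_getElem _ _ hi',
      List.getElem_map]
  rw [e3, encR_raw]

theorem p_G5 (hG4 : S_G4) (hG6 : S_G6) : S_G5 := by
  refine PolyTime.of_PolyF (Equiv.refl (Fin 5)) (Equiv.refl (Fin 5)) (G5G' hG4) fun S => ?_
  have e1 : (encPoints S).map (Equiv.refl (Fin 5)) = encPoints S := by simp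
  have e2 : (encPoints (theGr S)).map (Equiv.refl (Fin 5)) = encPoints (theGr S) := by simp
  rw [e1, e2]
  have e3 : G5pp (encPoints S) = S.map rawP := by
    unfold G5pp parse
    rw [pstep_points]
    simp
  unfold G5G theGr
  rw [e3]
  exact G5_enc_eq S _ fun i hi => by simpa using G5_gr_lt (S.map rawP) i hi

end Pool.Agent.Work.MP_a23c49_gr
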