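import Pool.Agent.Work.MP_a23c49_gr.Def

set_option linter.unusedVariables false

namespace Pool.Agent.Work.MP_a23c49_gr

open Pool.Agent.Work.MP_a23c49_lc Pool.Agent.Work.TMLib Finset

theorem p_G6 : S_G6 := by
  intro S hS
  have hlen : (S.map rawP).length = S.length := List.length_map _
  have hind : ∀ Y : List ℕ, indb (TS S) Y = true ↔ Ind (TS S) Y.toFinset := by
    intro Y
    unfold indb Ind
    simp only [List.all_eq_true, List.mem_toFinset, Bool.not_eq_true']
  have hcls : ∀ p c, (cls (S.map rawP) p c).Nodup ∧ ∀ i ∈ cls (S.map rawP) p c, i < S.length := by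
    intro p c
    unfold cls
    refine ⟨List.nodup_range.filter _, fun i hi => ?_⟩
    have h := (List.mem_filter.1 hi).1
    rw [List.mem_range, hlen] at h
    exact h
  have h0 : ((List.range (S.map rawP).length).filter fun i => decide (i = 0)).Nodup ∧
      Ind (TS S) ((List.range (S.map rawP).length).filter fun i => decide (i = 0)).toFinset ∧
      ∀ i ∈ (List.range (S.map rawP).length).filter fun i => decide (i = 0), i < S.length := by
    refine ⟨List.nodup_range.filter _, ?_, fun i hi => ?_⟩
    · intro a ha b hb c hc
      rw [List.mem_toFinset, List.mem_filter, decide_eq_true_iff] at ha hb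
      rw [ha.2, hb.2]
      by_contra h
      rw [Bool.not_eq_false, TS_iff] at h
      exact h.2.1.1 rfl
    · have h := (List.mem_filter.1 hi).1
      rw [List.mem_range, hlen] at h
      exact h
  obtain ⟨a1, a2, a3⟩ := foldl_lg (fun x : ℕ × ℕ =>
      bif indb (TL (table (S.map rawP))) (cls (S.map rawP) x.1 x.2) then cls (S.map rawP) x.1 x.2 else [])
    (fun B => B.Nodup ∧ Ind (TS S) B.toFinset ∧ ∀ i ∈ B, i < S.length)
    ((List.range (2 * (S.map rawP).length + 1)).flatMap fun p =>
      (List.range (2 * (S.map rawP).length + 1)).map fun c => (p, c))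
    ((List.range (S.map rawP).length).filter fun i => decide (i = 0)) h0 (by
      intro x _
      change (bif indb (TS S) (cls (S.map rawP) x.1 x.2) then cls (S.map rawP) x.1 x.2 else []).Nodup ∧
        Ind (TS S) (bif indb (TS S) (cls (S.map rawP) x.1 x.2) then cls (S.map rawP) x.1 x.2
          else []).toFinset ∧
        ∀ i ∈ (bif indb (TS S) (cls (S.map rawP) x.1 x.2) then cls (S.map rawP) x.1 x.2 else []),
          i < S.length
      cases h : indb (TS S) (cls (S.map rawP) x.1 x.2) with
      | true =>
        rw [cond_true]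
        exact ⟨(hcls _ _).1, (hind _).1 h, (hcls _ _).2⟩
      | false =>
        rw [cond_false]
        exact ⟨List.nodup_nil, by intro a ha; simp at ha, by simp⟩)
  refine ⟨a1, fun hne => ?_, fun p c hp hc h => ?_⟩
  · refine le_trans ?_ a2
    apply List.length_pos_of_mem (a := 0)
    rw [List.mem_filter, List.mem_range, hlen]
    exact ⟨List.length_pos_iff.2 hne, decide_eq_true rfl⟩
  · have h3 := a3 (p, c) (by
      rw [List.mem_flatMap]
      refine ⟨p, List.mem_range.mpr (by omega), List.mem_map.mpr ⟨c, List.mem_range.mpr (by omega), rfl⟩⟩)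
    change (bif indb (TS S) (cls (S.map rawP) p c) then cls (S.map rawP) p c else []).length ≤ _ at h3
    rw [h, cond_true] at h3
    exact h3

end Pool.Agent.Work.MP_a23c49_gr
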