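import Pool.Agent.Work.MP_a23c49_gr.Def

/-!
# MP_a23c49_lc, theorem GR: block G7 (the output is in general position)
-/

namespace Pool.Agent.Work.MP_a23c49_gr

open Pool.Agent.Work.MP_a23c49_lc Pool.Agent.Work.TMLib Finset

theorem p_G7 (hG6 : S_G6) : S_G7 := by
  intro S hS
  obtain ⟨h1, h2, h3⟩ := (hG6 S hS).1
  have e : theGr S = (gr (S.map rawP)).map (at' S) := rfl
  rw [e]
  set A := gr (S.map rawP) with hA
  refine ⟨?_, ?_, ?_⟩
  · refine List.Nodup.map_on ?_ h1
    intro i hi j hj h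
    exact at'_inj hS (h3 i hi) (h3 j hj) h
  · intro p hp
    rw [List.mem_toFinset, List.mem_map] at hp
    obtain ⟨i, hi, rfl⟩ := hp
    exact List.mem_toFinset.mpr (at'_mem (h3 i hi))
  · intro p hp q hq r hr hpq hqr hpr hc
    rw [List.mem_toFinset, List.mem_map] at hp hq hr
    obtain ⟨i, hi, rfl⟩ := hp
    obtain ⟨j, hj, rfl⟩ := hq
    obtain ⟨k, hk, rfl⟩ := hr
    have h4 : TS S i j k = true := by
      rw [TS_iff]
      refine ⟨⟨h3 i hi, h3 j hj, h3 k hk⟩, ⟨?_, ?_, ?_⟩, (col3_iff hpq).mp hc⟩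
      · rintro rfl; exact hpq rfl
      · rintro rfl; exact hqr rfl
      · rintro rfl; exact hpr rfl
    rw [h2 i (List.mem_toFinset.mpr hi) j (List.mem_toFinset.mpr hj) k
      (List.mem_toFinset.mpr hk)] at h4
    cases h4

end Pool.Agent.Work.MP_a23c49_gr
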