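import Pool.Agent.Work.MP_a23c49_gr.Def

/-! Block G8: three points of a parabola modulo p (helper57). -/

set_option linter.unusedVariables false

namespace Pool.Agent.Work.MP_a23c49_gr

open Pool.Agent.Work.MP_a23c49_lc Pool.Agent.Work.TMLib Finset

theorem p_G8 : S_G8 := by
  intro p x y c hp hx hy hc hne hcol
  have : Fact p.Prime := ⟨hp⟩
  have hY : ∀ i, ((y i : ℕ) : ZMod p) = ((x i : ℕ) : ZMod p) ^ 2 + (c : ZMod p) := by
    intro i
    have h1 : (((y i + (p - 1) * (x i * x i)) % p : ℕ) : ZMod p) = (c : ZMod p) := by rw [hc i]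
    rw [ZMod.natCast_mod] at h1
    push_cast [Nat.cast_sub hp.one_le] at h1
    rw [ZMod.natCast_self] at h1
    linear_combination h1
  unfold col3 at hcol
  simp only at hcol
  have hI : ((x 1 : ℤ) - x 0) * ((y 2 : ℤ) - y 0) = ((x 2 : ℤ) - x 0) * ((y 1 : ℤ) - y 0) := by
    exact_mod_cast hcol
  have hZ : ((x 1 : ZMod p) - x 0) * ((y 2 : ZMod p) - y 0) =
      ((x 2 : ZMod p) - x 0) * ((y 1 : ZMod p) - y 0) := by
    have := congrArg (Int.cast : ℤ → ZMod p) hI
    push_cast at this
    exact this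
  rw [hY 0, hY 1, hY 2] at hZ
  have hprod : ((x 1 : ZMod p) - x 0) * (((x 2 : ZMod p) - x 0) * ((x 2 : ZMod p) - x 1)) = 0 := by
    linear_combination hZ
  have key : ∀ i j : Fin 3, i ≠ j → ((x i : ZMod p) - x j) ≠ 0 := by
    intro i j hij h0
    have h1 : (x i : ZMod p) = x j := sub_eq_zero.mp h0
    have h2 : x i = x j := by
      have := congrArg ZMod.val h1
      rwa [ZMod.val_natCast_of_lt (hx i), ZMod.val_natCast_of_lt (hx j)] at this
    have h3 : (y i : ZMod p) = y j := by rw [hY i, hY j, h1]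
    have h4 : y i = y j := by
      have := congrArg ZMod.val h3
      rwa [ZMod.val_natCast_of_lt (hy i), ZMod.val_natCast_of_lt (hy j)] at this
    exact hne i j hij (by rw [h2, h4])
  rcases mul_eq_zero.mp hprod with h | h
  · exact key 1 0 (by decide) h
  · rcases mul_eq_zero.mp h with h | h
    · exact key 2 0 (by decide) h
    · exact key 2 1 (by decide) h

end Pool.Agent.Work.MP_a23c49_gr
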