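import Pool.Agent.Work.MP_a23c49_gr.Def

namespace Pool.Agent.Work.MP_a23c49_gr

open Pool.Agent.Work.MP_a23c49_lc Pool.Agent.Work.TMLib Finset

theorem p_G9 : S_G9 := by
  classical
  intro N S hg
  obtain ⟨O, hOS, hO, hc⟩ := exists_MG S.toFinset
  rw [← hc]
  have hx : ∀ s ∈ O, ∃ x y : ℕ, x < N ∧ s = ((x : ℚ), (y : ℚ)) := by
    intro s hs
    obtain ⟨x, y, h1, -, h2⟩ := hg s (List.mem_toFinset.1 (hOS hs))
    exact ⟨x, y, h1, h2⟩
  have h1 := card_le_mul_card_image (f := fun s : ℚ × ℚ => s.1) O 2 (by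
    intro a _
    by_contra h
    push Not at h
    obtain ⟨p, hp, q, hq, r, hr, hpq, hpr, hqr⟩ := two_lt_card.mp h
    rw [mem_filter] at hp hq hr
    have hcol : col3 p q r := by
      unfold col3
      rw [hq.2, hp.2, hr.2]
      ring
    exact hO p hp.1 q hq.1 r hr.1 hpq hqr hpr ((col3_iff hpq).2 hcol))
  refine h1.trans (Nat.mul_le_mul_left 2 ?_)
  have h2 : O.image (fun s : ℚ × ℚ => s.1) ⊆ (Finset.range N).image fun x : ℕ => (x : ℚ) := by
    intro a ha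
    obtain ⟨s, hs, rfl⟩ := mem_image.1 ha
    obtain ⟨x, y, hx1, rfl⟩ := hx s hs
    exact mem_image.2 ⟨x, mem_range.2 hx1, rfl⟩
  calc _ ≤ _ := card_le_card h2
    _ ≤ _ := card_image_le
    _ = N := card_range N

end Pool.Agent.Work.MP_a23c49_gr
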