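import Pool.Agent.Work.MP_a23c49_lc.Main

/-!
# MP_a23c49_lc, theorem GR: subsets of a grid. Definitions and block statements.
-/

set_option linter.unusedVariables false

namespace Pool.Agent.Work.MP_a23c49_gr

open Pool.Agent.Work.MP_a23c49_lc Pool.Agent.Work.TMLib Finset

/-- `a mod p` by subtraction -/
def md (a p : ℕ) : ℕ := (List.range a).foldl (fun v _ => bif decide (p ≤ v) then v - p else v) a

/-- the value of the binary digits `l` (least significant first), capped at `cap` -/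
def capv (cap : ℕ) (l : List Bool) : ℕ := l.reverse.foldl (fun v b => bif decide (v + v + (bif b then 1 else 0) ≤ cap)
  then v + v + (bif b then 1 else 0) else cap) 0

/-- both coordinates are natural numbers -/
def okR (r : RP) : Bool := (r.getD 1 []).isEmpty && (decide (r.getD 2 [] = [true]) && ((r.getD 4 []).isEmpty &&
  decide (r.getD 5 [] = [true])))

/-- the points with natural coordinates and `y + (p - 1) x ^ 2 = c` modulo `p` -/
def cls (P : List RP) (p c : ℕ) : List ℕ := (List.range P.length).filter fun i => okR (P.getD i []) &&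
  decide (md (capv P.length ((P.getD i []).getD 3 []) + (p - 1) * (capv P.length ((P.getD i []).getD 0 []) *
    capv P.length ((P.getD i []).getD 0 []))) p = c)

/-- no three collinear points -/
def indb (T : ℕ → ℕ → ℕ → Bool) (Y : List ℕ) : Bool := Y.all fun a => Y.all fun b => Y.all fun c => !(T a b c)

/-- the algorithm on raw points -/
def gr (P : List RP) : List ℕ := ((List.range (2 * P.length + 1)).flatMap fun p => (List.range (2 * P.length + 1)).map
  fun c => (p, c)).foldl (fun B x => lg B (bif indb (TL (table P)) (cls P x.1 x.2) then cls P x.1 x.2 else []))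
  ((List.range P.length).filter fun i => decide (i = 0))

/-- the algorithm -/
def theGr (S : List (ℚ × ℚ)) : List (ℚ × ℚ) := (gr (S.map rawP)).map (at' S)

/-- G1 -/
def S_G1 : Prop := (∀ a p, md a p = a % p) ∧ PolyF (fun x : ℕ × ℕ => md x.1 x.2)
/-- G2 -/
def S_G2 : Prop := (∀ cap l, capv cap l = min cap (bv l)) ∧ PolyF (fun x : ℕ × List Bool => capv x.1 x.2)
/-- G3 -/
def S_G3 : Prop := PolyF (fun x : (List RP × ℕ) × ℕ => cls x.1.1 x.1.2 x.2)
/-- G4 -/
def S_G4 : Prop := PolyF (fun P : List RP => gr P)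
/-- G5 -/
def S_G5 : Prop := PolyTime encPoints encPoints theGr
/-- G6: validity and maximality -/
def S_G6 : Prop := ∀ S : List (ℚ × ℚ), S.Nodup → ((gr (S.map rawP)).Nodup ∧ Ind (TS S) (gr (S.map rawP)).toFinset ∧
  ∀ i ∈ gr (S.map rawP), i < S.length) ∧ (S ≠ [] → 1 ≤ (gr (S.map rawP)).length) ∧
  ∀ p c, p ≤ 2 * S.length → c ≤ 2 * S.length → indb (TS S) (cls (S.map rawP) p c) = true →
    (cls (S.map rawP) p c).length ≤ (gr (S.map rawP)).length
/-- G7: the output is in general position -/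
def S_G7 : Prop := ∀ S : List (ℚ × ℚ), S.Nodup →
  (theGr S).Nodup ∧ (theGr S).toFinset ⊆ S.toFinset ∧ GenPos (theGr S).toFinset
/-- G8: three points of a parabola modulo `p` -/
def S_G8 : Prop := ∀ (p : ℕ) (x y : Fin 3 → ℕ) (c : ℕ), p.Prime → (∀ i, x i < p) → (∀ i, y i < p) →
  (∀ i, (y i + (p - 1) * (x i * x i)) % p = c) → (∀ i j, i ≠ j → (x i, y i) ≠ (x j, y j)) →
  ¬ col3 ((x 0 : ℚ), (y 0 : ℚ)) ((x 1 : ℚ), (y 1 : ℚ)) ((x 2 : ℚ), (y 2 : ℚ))
/-- `S` is a subset of the `N × N` grid -/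
def InGrid (N : ℕ) (S : List (ℚ × ℚ)) : Prop := ∀ s ∈ S, ∃ x y : ℕ, x < N ∧ y < N ∧ s = ((x : ℚ), (y : ℚ))
/-- G9: the upper bound -/
def S_G9 : Prop := ∀ (N : ℕ) (S : List (ℚ × ℚ)), InGrid N S → MG S.toFinset ≤ 2 * N
/-- G10: the classes -/
def S_G10 : Prop := ∀ (N : ℕ) (S : List (ℚ × ℚ)) (p i x y : ℕ), InGrid N S → N ≤ S.length → i < S.length →
  at' S i = ((x : ℚ), (y : ℚ)) → x < N → y < N → ∀ c, i ∈ cls (S.map rawP) p c ↔ (y + (p - 1) * (x * x)) % p = c
/-- G11: the large class -/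
def S_G11 : Prop := ∀ (N : ℕ) (S : List (ℚ × ℚ)) (p : ℕ), S.Nodup → InGrid N S → N ≤ S.length → 1 ≤ p →
  ∃ c < p, S.length ≤ p * (cls (S.map rawP) p c).length
/-- G12: the classes are independent -/
def S_G12 : Prop := ∀ (N : ℕ) (S : List (ℚ × ℚ)) (p c : ℕ), S.Nodup → InGrid N S → N ≤ S.length → p.Prime → N ≤ p →
  indb (TS S) (cls (S.map rawP) p c) = true
/-- the theorem -/
def S_FIN : Prop := ∃ A : List (ℚ × ℚ) → List (ℚ × ℚ), PolyTime encPoints encPoints A ∧
  (∀ S : List (ℚ × ℚ), S.Nodup → (A S).Nodup ∧ (A S).toFinset ⊆ S.toFinset ∧ GenPos (A S).toFinset) ∧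
  ∀ (N : ℕ) (S : List (ℚ × ℚ)), S.Nodup → InGrid N S → MG S.toFinset * S.length ≤ 4 * N ^ 2 * (A S).length

end Pool.Agent.Work.MP_a23c49_gr
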