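import Pool.Agent.Work.MP_a23c49_gr.B_G1
import Pool.Agent.Work.MP_a23c49_gr.B_G2
import Pool.Agent.Work.MP_a23c49_gr.B_G3
import Pool.Agent.Work.MP_a23c49_gr.B_G4
import Pool.Agent.Work.MP_a23c49_gr.B_G5
import Pool.Agent.Work.MP_a23c49_gr.B_G6
import Pool.Agent.Work.MP_a23c49_gr.B_G7
import Pool.Agent.Work.MP_a23c49_gr.B_G8
import Pool.Agent.Work.MP_a23c49_gr.B_G9
import Pool.Agent.Work.MP_a23c49_gr.B_G10
import Pool.Agent.Work.MP_a23c49_gr.B_G11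
import Pool.Agent.Work.MP_a23c49_gr.B_G12
import Pool.Agent.Work.MP_a23c49_gr.B_FIN

/-!
# Assembly
-/

namespace Pool.Agent.Work.MP_a23c49_gr

theorem g_G3 : S_G3 := p_G3 p_G1 p_G2
theorem g_G4 : S_G4 := p_G4 g_G3
theorem g_G5 : S_G5 := p_G5 g_G4 p_G6
theorem g_G7 : S_G7 := p_G7 p_G6
theorem g_G10 : S_G10 := p_G10 p_G1 p_G2
theorem g_G11 : S_G11 := p_G11 g_G10
theorem g_G12 : S_G12 := p_G12 p_G8 g_G10
theorem g_FIN : S_FIN := p_FIN g_G5 p_G6 g_G7 p_G9 g_G11 g_G12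

end Pool.Agent.Work.MP_a23c49_gr
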